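import Pool.Agent.U251.LD.Stm

set_option autoImplicit false

namespace Pool.Agent.U283.LD

open Real Filter Topology Pool.Agent.U251.LD

/-- the summatory function of `d4` -/
noncomputable def D (Y : ℕ) : ℝ := ∑ n ∈ Finset.Icc 1 Y, d4 n

lemma dv_nonneg (n : ℕ) : 0 ≤ dv n := Nat.cast_nonneg _

lemma d4_nonneg (n : ℕ) : 0 ≤ d4 n :=
  Finset.sum_nonneg fun _ _ => mul_nonneg (dv_nonneg _) (dv_nonneg _)

lemma D_nonneg (Y : ℕ) : 0 ≤ D Y := Finset.sum_nonneg fun _ _ => d4_nonneg _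

lemma D_zero : D 0 = 0 := by simp [D]

lemma sum_mult (X e : ℕ) (he : 0 < e) :
    ∑ n ∈ (Finset.Icc 1 X).filter (fun n => e ^ 2 ∣ n), d4 (n / e ^ 2) = D (X / e ^ 2) := by
  unfold D
  have h : 0 < e ^ 2 := by positivity
  symm
  refine Finset.sum_bij (fun m _ => e ^ 2 * m) ?_ ?_ ?_ ?_
  · intro m hm
    rw [Finset.mem_Icc] at hm
    rw [Finset.mem_filter, Finset.mem_Icc]
    refine ⟨⟨Nat.mul_pos h hm.1, ?_⟩, dvd_mul_right _ _⟩
    have := (Nat.le_div_iff_mul_le h).1 hm.2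
    rwa [mul_comm] at this
  · intro a _ b _ hab
    exact Nat.eq_of_mul_eq_mul_left h hab
  · intro n hn
    rw [Finset.mem_filter, Finset.mem_Icc] at hn
    obtain ⟨⟨h1, h2⟩, m, rfl⟩ := hn
    refine ⟨m, ?_, rfl⟩
    rw [Finset.mem_Icc]
    constructor
    · exact Nat.pos_of_ne_zero (by rintro rfl; simp at h1)
    · exact (Nat.le_div_iff_mul_le h).2 (by rwa [mul_comm])
  · intro m _
    rw [Nat.mul_div_cancel_left _ h]

lemma sum_dv (h : S_D4I) (X : ℕ) : ∑ n ∈ Finset.Icc 1 X, dv n ^ 2 =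
    ∑ e ∈ Finset.Icc 1 X, (ArithmeticFunction.moebius e : ℝ) * D (X / e ^ 2) := by
  have h1 : ∀ n ∈ Finset.Icc 1 X, dv n ^ 2 = ∑ e ∈ Finset.Icc 1 X,
      if e ^ 2 ∣ n then (ArithmeticFunction.moebius e : ℝ) * d4 (n / e ^ 2) else 0 := by
    intro n hn
    rw [Finset.mem_Icc] at hn
    rw [h n hn.1, ← Finset.sum_filter]
    refine Finset.sum_subset ?_ ?_
    · intro e he
      rw [Finset.mem_filter, Finset.mem_Icc] at he ⊢
      exact ⟨⟨he.1.1, he.1.2.trans hn.2⟩, he.2⟩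
    · intro e he hne
      rw [Finset.mem_filter, Finset.mem_Icc] at he hne
      have h2 : e ^ 2 ≤ n := Nat.le_of_dvd hn.1 he.2
      have h3 : e ≤ e ^ 2 := by nlinarith [he.1.1]
      exact absurd ⟨⟨he.1.1, h3.trans h2⟩, he.2⟩ hne
  rw [Finset.sum_congr rfl h1, Finset.sum_comm]
  refine Finset.sum_congr rfl fun e he => ?_
  rw [← Finset.sum_filter, ← Finset.mul_sum, sum_mult X e (Finset.mem_Icc.1 he).1]

lemma tsum_form (h : S_D4I) (X : ℕ) : ∑ n ∈ Finset.Icc 1 X, dv n ^ 2 =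
    ∑' e : ℕ, (ArithmeticFunction.moebius e : ℝ) * D (X / e ^ 2) := by
  rw [sum_dv h X]
  symm
  refine tsum_eq_sum fun e he => ?_
  rcases Nat.eq_zero_or_pos e with rfl | h0
  · simp
  · have h1 : X < e := by
      by_contra h2
      exact he (Finset.mem_Icc.2 ⟨h0, not_lt.1 h2⟩)
    have h2 : X < e ^ 2 := by nlinarith
    rw [Nat.div_eq_of_lt h2, D_zero, mul_zero]

lemma moebius_sum :
    ∑' e : ℕ, (ArithmeticFunction.moebius e : ℝ) * (1 / (e : ℝ) ^ 2) = 6 / π ^ 2 := by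
  have h1 : 1 < (2 : ℂ).re := by simp
  have h2 := LSeries_one_mul_Lseries_moebius h1
  rw [LSeries_one_eq_riemannZeta h1, riemannZeta_two] at h2
  have h3 : LSeries (fun n => ((ArithmeticFunction.moebius n : ℤ) : ℂ)) 2 =
      ((∑' e : ℕ, (ArithmeticFunction.moebius e : ℝ) * (1 / (e : ℝ) ^ 2) : ℝ) : ℂ) := by
    rw [Complex.ofReal_tsum, LSeries]
    refine tsum_congr fun n => ?_
    by_cases hn : n = 0
    · subst hn
      simp
    · rw [LSeries.term_of_ne_zero hn]
      have h5 : (n : ℂ) ^ (2 : ℂ) = (n : ℂ) ^ 2 := by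
        exact_mod_cast Complex.cpow_natCast (n : ℂ) 2
      rw [h5]
      push_cast
      ring
  rw [h3] at h2
  have h4 : π ^ 2 / 6 * (∑' e : ℕ, (ArithmeticFunction.moebius e : ℝ) * (1 / (e : ℝ) ^ 2)) = 1 := by
    exact_mod_cast h2
  have h6 : π ≠ 0 := Real.pi_ne_zero
  field_simp at h4 ⊢
  linarith

lemma lim_e (h4 : S_D4) (k : ℕ) (hk : 0 < k) :
    Tendsto (fun X : ℕ => D (X / k) / (X * log X ^ 3)) atTop (𝓝 (1 / 6 * (1 / (k : ℝ)))) := by
  have t1 : Tendsto (fun X : ℕ => X / k) atTop atTop := Nat.tendsto_div_const_atTop hk.ne'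
  have a1 : Tendsto (fun X : ℕ => D (X / k) / (((X / k : ℕ) : ℝ) * log ((X / k : ℕ) : ℝ) ^ 3))
      atTop (𝓝 (1 / 6)) := h4.comp t1
  have a2 : Tendsto (fun X : ℕ => ((X / k : ℕ) : ℝ) / X) atTop (𝓝 (1 / (k : ℝ))) := by
    have h0 : (0 : ℝ) ≤ 1 / (k : ℝ) := by positivity
    have h1 := (tendsto_nat_floor_mul_div_atTop h0).comp
      (tendsto_natCast_atTop_atTop (R := ℝ))
    refine h1.congr fun X => ?_
    simp only [Function.comp_apply]
    rw [one_div_mul_eq_div, Nat.floor_div_eq_div]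
  have l1 : Tendsto (fun X : ℕ => log (X : ℝ)) atTop atTop :=
    tendsto_log_atTop.comp tendsto_natCast_atTop_atTop
  have a3 : Tendsto (fun X : ℕ => log ((X / k : ℕ) : ℝ) / log X) atTop (𝓝 1) := by
    have h0 : (1 / (k : ℝ)) ≠ 0 := by positivity
    have b1 := a2.log h0
    have b2 := (tendsto_const_nhds (x := (1 : ℝ))).add (b1.div_atTop l1)
    rw [add_zero] at b2
    refine b2.congr' ?_
    filter_upwards [eventually_ge_atTop 2, t1.eventually_ge_atTop 1] with X hX hY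
    have c1 : (X : ℝ) ≠ 0 := by positivity
    have c2 : ((X / k : ℕ) : ℝ) ≠ 0 := by
      have : 0 < X / k := hY
      positivity
    have c3 : log (X : ℝ) ≠ 0 := by
      have : (1 : ℝ) < X := by exact_mod_cast hX
      exact (Real.log_pos this).ne'
    rw [Real.log_div c2 c1]
    field_simp
    ring
  have a4 := a1.mul (a2.mul (a3.pow 3))
  rw [one_pow, mul_one] at a4
  refine a4.congr' ?_
  filter_upwards [eventually_ge_atTop 2, t1.eventually_ge_atTop 2] with X hX hY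
  have c1 : (X : ℝ) ≠ 0 := by positivity
  have c2 : ((X / k : ℕ) : ℝ) ≠ 0 := by
    have : 0 < X / k := lt_of_lt_of_le (by norm_num) hY
    positivity
  have c3 : log (X : ℝ) ≠ 0 := by
    have : (1 : ℝ) < X := by exact_mod_cast hX
    exact (Real.log_pos this).ne'
  have c4 : log ((X / k : ℕ) : ℝ) ≠ 0 := by
    have : (1 : ℝ) < ((X / k : ℕ) : ℝ) := by exact_mod_cast hY
    exact (Real.log_pos this).ne'
  field_simp

lemma bound (h4 : S_D4) : ∃ C : ℝ, 0 ≤ C ∧ ∀ Y : ℕ, 1 ≤ Y →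
    D Y ≤ C * (Y * (1 + log Y) ^ 3) := by
  obtain ⟨C₀, hC₀⟩ := h4.bddAbove_range
  refine ⟨max C₀ (D 1), (D_nonneg 1).trans (le_max_right _ _), fun Y hY => ?_⟩
  have hC : 0 ≤ max C₀ (D 1) := (D_nonneg 1).trans (le_max_right _ _)
  rcases Nat.eq_or_lt_of_le hY with rfl | hY2
  · simp
  · have h1 : D Y / (Y * log Y ^ 3) ≤ C₀ := hC₀ ⟨Y, rfl⟩
    have h2 : (1 : ℝ) < Y := by exact_mod_cast hY2
    have h3 : 0 < log (Y : ℝ) := Real.log_pos h2
    have h4 : 0 < (Y : ℝ) * log Y ^ 3 := by positivity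
    rw [div_le_iff₀ h4] at h1
    calc D Y ≤ C₀ * (Y * log Y ^ 3) := h1
      _ ≤ max C₀ (D 1) * (Y * log Y ^ 3) :=
          mul_le_mul_of_nonneg_right (le_max_left _ _) h4.le
      _ ≤ max C₀ (D 1) * (Y * (1 + log Y) ^ 3) := by
          refine mul_le_mul_of_nonneg_left ?_ hC
          refine mul_le_mul_of_nonneg_left ?_ (by positivity)
          exact pow_le_pow_left₀ h3.le (by linarith) 3

theorem t_RSA : S_D4 → S_D4I → S_RS := by
  intro h4 hI
  obtain ⟨C, hC, hb⟩ := bound h4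
  have key : Tendsto (fun X : ℕ => ∑' e : ℕ, (ArithmeticFunction.moebius e : ℝ) *
      (D (X / e ^ 2) / (X * log X ^ 3))) atTop
      (𝓝 (∑' e : ℕ, (ArithmeticFunction.moebius e : ℝ) * (1 / 6 * (1 / (e : ℝ) ^ 2)))) := by
    refine tendsto_tsum_of_dominated_convergence (bound := fun e => 8 * C * (1 / (e : ℝ) ^ 2))
      ?_ ?_ ?_
    · exact (Real.summable_one_div_nat_pow.2 (by norm_num)).mul_left _
    · intro e
      rcases Nat.eq_zero_or_pos e with rfl | h0
      · simp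
      · have := lim_e h4 (e ^ 2) (by positivity)
        refine Tendsto.const_mul _ ?_
        convert this using 3
        push_cast
        ring
    · have l1 : Tendsto (fun X : ℕ => log (X : ℝ)) atTop atTop :=
        tendsto_log_atTop.comp tendsto_natCast_atTop_atTop
      filter_upwards [eventually_ge_atTop 1, l1.eventually_ge_atTop 1] with X hX hl e
      rcases Nat.eq_zero_or_pos e with rfl | h0
      · simp
      · have c0 : (0 : ℝ) < X := by exact_mod_cast hX
        have c1 : (0 : ℝ) < X * log X ^ 3 := by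
          have : 0 < log (X : ℝ) := by linarith
          positivity
        have c2 : (0 : ℝ) < (e : ℝ) ^ 2 := by positivity
        have c3 : 0 ≤ D (X / e ^ 2) / (X * log X ^ 3) := div_nonneg (D_nonneg _) c1.le
        rw [norm_mul, Real.norm_eq_abs, Real.norm_eq_abs, abs_of_nonneg c3]
        have c4 : |((ArithmeticFunction.moebius e : ℤ) : ℝ)| ≤ 1 := by
          exact_mod_cast ArithmeticFunction.abs_moebius_le_one
        refine (mul_le_of_le_one_left c3 c4).trans ?_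
        rw [div_le_iff₀ c1]
        rcases Nat.eq_zero_or_pos (X / e ^ 2) with hY | hY
        · rw [hY, D_zero]
          positivity
        · have d1 := hb _ hY
          have d2 : ((X / e ^ 2 : ℕ) : ℝ) ≤ X / (e : ℝ) ^ 2 := by
            have := Nat.cast_div_le (α := ℝ) (m := X) (n := e ^ 2)
            simpa using this
          have d3 : (1 : ℝ) ≤ ((X / e ^ 2 : ℕ) : ℝ) := by exact_mod_cast hY
          have d4 : log ((X / e ^ 2 : ℕ) : ℝ) ≤ log X := by
            refine Real.log_le_log (by linarith) ?_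
            exact_mod_cast Nat.div_le_self _ _
          have d5 : 0 ≤ log ((X / e ^ 2 : ℕ) : ℝ) := Real.log_nonneg d3
          have d6 : (1 + log ((X / e ^ 2 : ℕ) : ℝ)) ^ 3 ≤ (2 * log X) ^ 3 :=
            pow_le_pow_left₀ (by linarith) (by linarith) 3
          calc D (X / e ^ 2) ≤ C * (((X / e ^ 2 : ℕ) : ℝ) * (1 + log ((X / e ^ 2 : ℕ) : ℝ)) ^ 3) :=
                d1
            _ ≤ C * (X / (e : ℝ) ^ 2 * (2 * log X) ^ 3) :=
                mul_le_mul_of_nonneg_left (mul_le_mul d2 d6 (by positivity) (by positivity)) hC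
            _ = 8 * C * (1 / (e : ℝ) ^ 2) * (X * log X ^ 3) := by ring
  have hval : ∑' e : ℕ, (ArithmeticFunction.moebius e : ℝ) * (1 / 6 * (1 / (e : ℝ) ^ 2)) =
      1 / π ^ 2 := by
    have h1 : ∀ e : ℕ, (ArithmeticFunction.moebius e : ℝ) * (1 / 6 * (1 / (e : ℝ) ^ 2)) =
        1 / 6 * ((ArithmeticFunction.moebius e : ℝ) * (1 / (e : ℝ) ^ 2)) := fun e => by ring
    rw [tsum_congr h1, tsum_mul_left, moebius_sum]
    ring
  rw [hval] at key
  refine key.congr fun X => ?_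
  rw [tsum_form hI X, ← tsum_div_const]
  exact tsum_congr fun e => (mul_div_assoc _ _ _).symm

end Pool.Agent.U283.LD
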